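import Pool.Agent.W811.LW.Stm

/-! LW-WGT: the weight function. -/

set_option autoImplicit false

namespace Pool.Agent.W513.LW

open Finset Pool.Agent.W811.LW

theorem inner (n A : ℕ) :
    ∑ j ∈ range (n + 1), (if n + j ≤ A then (1 / 2 : ℝ) ^ (A - (n + j)) else 0) ≤ 2 := by
  rw [← Finset.sum_filter]
  have hinj : Set.InjOn (fun j => A - (n + j)) ((range (n + 1)).filter (fun j => n + j ≤ A) : Set ℕ) := by
    intro j hj j' hj' h
    have h1 := (Finset.mem_filter.mp hj).2
    have h2 := (Finset.mem_filter.mp hj').2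
    simp only at h
    omega
  have h1 : ∑ j ∈ (range (n + 1)).filter (fun j => n + j ≤ A), (1 / 2 : ℝ) ^ (A - (n + j)) =
      ∑ m ∈ ((range (n + 1)).filter (fun j => n + j ≤ A)).image (fun j => A - (n + j)), (1 / 2 : ℝ) ^ m :=
    (Finset.sum_image hinj).symm
  rw [h1]
  have h2 : ((range (n + 1)).filter (fun j => n + j ≤ A)).image (fun j => A - (n + j)) ⊆ range (A + 1) := by
    intro m hm
    obtain ⟨j, _, rfl⟩ := Finset.mem_image.mp hm
    rw [Finset.mem_range]
    omega
  refine (Finset.sum_le_sum_of_subset_of_nonneg h2 (fun m _ _ => by positivity)).trans ?_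
  exact sum_geometric_two_le _

theorem wgt : WGT := by
  classical
  intro L K hL hK
  have hex : ∀ l, ∃ k, l ≤ L k := fun l => ⟨l, hL.le_apply⟩
  let f : ℕ → ℕ := fun l => Nat.find (hex l)
  have hf1 : ∀ l, l ≤ L (f l) := fun l => Nat.find_spec (hex l)
  have hf2 : ∀ l k, l ≤ L k → f l ≤ k := fun l k h => Nat.find_min' (hex l) h
  have hmono : ∀ l l', l ≤ l' → f l ≤ f l' := fun l l' h => hf2 l _ (h.trans (hf1 l'))
  refine ⟨fun l => (1 / 2 : ℝ) ^ (L (f l) - l), fun l => by positivity, ?_, ?_, 2 * ((K : ℝ) + 1), ?_⟩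
  · intro l
    have h1 : L (f l) ≤ L (f (l + 1)) := hL.monotone (hmono l (l + 1) (Nat.le_succ l))
    have h2 : (L (f l) - l) ≤ (L (f (l + 1)) - (l + 1)) + 1 := by omega
    have h3 : (1 / 2 : ℝ) ^ ((L (f (l + 1)) - (l + 1)) + 1) ≤ (1 / 2 : ℝ) ^ (L (f l) - l) :=
      pow_le_pow_of_le_one (by norm_num) (by norm_num) h2
    rw [pow_succ] at h3
    linarith
  · intro k
    have h1 : f (L k) ≤ k := hf2 _ _ le_rfl
    have h2 : L (f (L k)) ≤ L k := hL.monotone h1
    have h3 := hf1 (L k)
    have h4 : L (f (L k)) - L k = 0 := by omega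
    show (1 : ℝ) ≤ (1 / 2 : ℝ) ^ (L (f (L k)) - L k)
    rw [h4, pow_zero]
  · intro n
    have hstep : ∀ j ∈ range (n + 1), (1 / 2 : ℝ) ^ (L (f (n + j)) - (n + j)) ≤
        ∑ i ∈ range (K + 1), (if n + j ≤ L (f n + i) then (1 / 2 : ℝ) ^ (L (f n + i) - (n + j)) else 0) := by
      intro j hj
      have hj' : j ≤ n := Nat.lt_succ_iff.mp (Finset.mem_range.mp hj)
      have h1 : f n ≤ f (n + j) := hmono _ _ (Nat.le_add_right _ _)
      have h2 : f (n + j) ≤ f n + K := by
        apply hf2
        have h3 := hK (f n)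
        have h4 := hf1 n
        omega
      have hi : f (n + j) - f n ∈ range (K + 1) := by
        rw [Finset.mem_range]
        omega
      have h5 : f n + (f (n + j) - f n) = f (n + j) := by omega
      have h6 := Finset.single_le_sum (f := fun i => (if n + j ≤ L (f n + i) then
        (1 / 2 : ℝ) ^ (L (f n + i) - (n + j)) else 0)) (fun i _ => by
          show (0 : ℝ) ≤ if n + j ≤ L (f n + i) then (1 / 2 : ℝ) ^ (L (f n + i) - (n + j)) else 0
          split_ifs
          · positivity
          · exact le_rfl) hi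
      simp only [h5, if_pos (hf1 (n + j))] at h6
      exact h6
    refine (Finset.sum_le_sum hstep).trans ?_
    rw [Finset.sum_comm]
    refine (Finset.sum_le_sum (fun i _ => inner n (L (f n + i)))).trans ?_
    rw [Finset.sum_const, Finset.card_range, nsmul_eq_mul]
    push_cast
    linarith

end Pool.Agent.W513.LW
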